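import Mathlib
import Pool.Agent.H32.CHY

open Set Filter Function Topology
open Cardinal hiding univ

namespace Pool.Agent.Results.MP_77d395_lc.UnderCH

open Pool.Agent.H32 UFA CHY

open Classical in
/-- `Y`, with `ι : ℕ → Y` and the assignment `st`, is a functional extension of `ℕ` -/
structure FunExt {Y : Type} (ι : ℕ → Y) (st : (ℕ → ℕ) → Y → Y) : Prop where
  inj : Injective ι
  proper : ¬ Surjective ι
  ext : ∀ f x, st f (ι x) = ι (f x)
  comp : ∀ f g, st (g ∘ f) = st g ∘ st f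
  equ : ∀ f g, st (fun x => if f x = g x then 1 else 0) =
    fun ξ => if st f ξ = st g ξ then ι 1 else ι 0
  dir : ∀ ξ η, ∃ p q ζ, st p ζ = ξ ∧ st q ζ = η

/-- the S-topology, generated by the sets `*A` -/
def sTop {Y : Type} (ι : ℕ → Y) (st : (ℕ → ℕ) → Y → Y) : TopologicalSpace Y :=
  TopologicalSpace.generateFrom (range fun A : Set ℕ => {ξ | st (A.indicator 1) ξ = ι 1})

def CountablyCompact (Y : Type) [TopologicalSpace Y] : Prop := T2Space Y ∧
  ∀ U : ℕ → Set Y, (∀ n, IsOpen (U n)) → ⋃ n, U n = univ → ∃ s : Finset ℕ, ⋃ n ∈ s, U n = univ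

theorem result (CH : 𝔠 = (ℵ₁ : Cardinal.{0})) : ∃ (Y : Type) (ι : ℕ → Y)
    (st : (ℕ → ℕ) → Y → Y), FunExt ι st ∧ @CountablyCompact Y (sTop ι st) := by
  classical
  obtain ⟨Y, ⟨y1, y2, y3⟩, p, hY⟩ := exists_Y CH
  refine ⟨Y, fun n => ⟨_, p n⟩, fun f ξ => ⟨_, y1 f _ ξ.2⟩,
    ⟨fun a b k => Ultrafilter.pure_injective (congrArg Subtype.val k), fun k => ?_,
      fun _ _ => rfl, fun _ _ => rfl, fun f g => funext fun ξ => Subtype.ext ?_, fun ξ η => ?_⟩, ?_⟩
  · obtain ⟨v, v1, v2⟩ := hY _ p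
    obtain ⟨n, hn⟩ := k ⟨_, v2⟩
    have : v = pure n := (congrArg Subtype.val hn).symm
    simpa [this] using v1 (eventually_gt_atTop n)
  · by_cases e : {x | f x = g x} ∈ ξ.1
    · rw [if_pos (Subtype.ext (map_congr (f := f) (f' := g) e))]
      exact map_eq_pure.2 (mem_of_superset e fun x hx => if_pos hx)
    · have e' := Ultrafilter.compl_mem_iff_notMem.2 e
      have z : ξ.1.map f ≠ ξ.1.map g := fun z =>
        y3 _ ξ.2 f (fun x => if f x = g x then f x + 1 else g x)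
          (fun x => by split_ifs with y <;> simp [y])
          (z.trans (map_congr (mem_of_superset e' fun x hx => (if_neg hx).symm)))
      rw [if_neg fun y => z (congrArg Subtype.val y)]
      exact map_eq_pure.2 (mem_of_superset e' fun x hx => if_neg hx)
  · obtain ⟨ζ, a, b, c⟩ := y2 _ ξ.2 _ η.2
    exact ⟨_, _, ⟨ζ, a⟩, Subtype.ext b, Subtype.ext c⟩
  have t : sTop (Y := Y) (fun n => ⟨_, p n⟩) (fun f ξ => ⟨_, y1 f _ ξ.2⟩) =
      instTopologicalSpaceSubtype := by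
    refine Eq.trans ?_ induced_generateFrom_eq.symm
    rw [sTop, ultrafilterBasis, ← range_comp]
    congr 2
    funext A
    ext ξ
    simp [Subtype.ext_iff, map_eq_pure, indicator_apply]
  rw [t]
  refine ⟨inferInstance, fun U h1 h2 => ?_⟩
  by_contra! z
  choose ξ hξ using fun n => (ne_univ_iff_exists_notMem _).1 (z (Finset.range (n + 1)))
  obtain ⟨v, v1, v2⟩ := hY _ fun n => (ξ n).2
  obtain ⟨m, hm⟩ := mem_iUnion.1 (h2.ge (mem_univ ⟨_, v2⟩))
  have t : Tendsto ξ v (𝓝 ⟨_, v2⟩) := tendsto_subtype_rng.2 (UFB.tendsto_bind v _)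
  obtain ⟨n, n1, n2⟩ := Ultrafilter.nonempty_of_mem
    (inter_mem (t ((h1 m).mem_nhds hm)) (v1 (eventually_ge_atTop m)))
  exact hξ n (mem_biUnion (Finset.mem_range.2 (Nat.lt_succ_of_le n2)) n1)

end Pool.Agent.Results.MP_77d395_lc.UnderCH
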